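import Pool.Agent.Helper27.FM.Twist

/-!
# MP_b583a4_nt: a local modularity criterion for two-dimensional p-adic representations

`V` is a strongly irreducible two-dimensional `ℚ_p`-representation of a profinite group and
`ρ i` finitely many arbitrary ones.  If, near one element `g₀` and along a dense set, some linear
functional of the matrix `V g` (for instance its trace, if `V g₀` is not a scalar) is controlled
modulo `p^n` by the `ρ i` modulo `p^(n+c)`, then `V` is a twist of some `ρ i`.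
-/

set_option autoImplicit false
open Matrix Filter Topology Pool.Agent.Helper27.FM

namespace Pool.Agent.Results.MP_b583a4_nt.LocalControl

/-- entrywise congruence modulo `p^n` of matrices over `ℚ_p` -/
def ModEq (p : ℕ) [Fact p.Prime] (n : ℕ) (a b : Matrix (Fin 2) (Fin 2) ℚ_[p]) : Prop :=
  ∀ i j, ‖a i j - b i j‖ ≤ (p : ℝ)⁻¹ ^ n

theorem result (p : ℕ) [hp : Fact p.Prime]
    -- a profinite group
    {G : Type*} [Group G] [TopologicalSpace G] [IsTopologicalGroup G] [CompactSpace G]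
    [TotallyDisconnectedSpace G]
    -- a strongly irreducible representation
    (V : G →* GL (Fin 2) ℚ_[p]) (hV : Continuous V) (hirr : StronglyIrreducible V)
    -- finitely many arbitrary representations
    {ι : Type*} [Finite ι] (ρ : ι → G →* GL (Fin 2) ℚ_[p]) (hρ : ∀ i, Continuous (ρ i))
    -- an element and a linear functional
    (g₀ : G) (L : Matrix (Fin 2) (Fin 2) ℚ_[p] →ₗ[ℚ_[p]] ℚ_[p])
    (hL : ∀ t : ℚ_[p], ∃ y : Matrix (Fin 2) (Fin 2) ℚ_[p],
      L y ≠ t * (((V g₀)⁻¹ : GL (Fin 2) ℚ_[p]) * y).trace)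
    -- a dense set and a neighbourhood
    (D : Set G) (hD : Dense D) (N : Set G) (hN : N ∈ 𝓝 g₀) (c : ℕ)
    (h : ∀ g ∈ D ∩ N, ∀ n : ℕ, (∀ i, ModEq p (n + c) (ρ i g) (ρ i g₀)) →
      ‖L (V g) - L (V g₀)‖ ≤ (p : ℝ)⁻¹ ^ n) :
    ∃ i, IsTwist V (ρ i) := by
  classical
  haveI := Fintype.ofFinite ι
  by_contra hcon
  push Not at hcon
  have hpr : 0 < (p : ℝ)⁻¹ := by
    have := hp.out.pos
    positivity
  have hpr1 : (p : ℝ)⁻¹ < 1 := by
    apply inv_lt_one_of_one_lt₀
    exact_mod_cast hp.out.one_lt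
  have hLc : Continuous L := LinearMap.continuous_of_finiteDimensional L
  have hVc : Continuous (fun g => (V g : M2 ℚ_[p])) := Units.continuous_val.comp hV
  have hρc : ∀ i, Continuous (fun g => (ρ i g : M2 ℚ_[p])) :=
    fun i => Units.continuous_val.comp (hρ i)
  -- extend the hypothesis to all elements
  have hall : ∀ g ∈ interior N, ∀ n : ℕ, (∀ i, ModEq p (n + c) (ρ i g) (ρ i g₀)) →
      ‖L (V g) - L (V g₀)‖ ≤ (p : ℝ)⁻¹ ^ n := by
    intro g hg n hmod
    let O : Set G := interior N ∩ ({g' | ‖L (V g') - L (V g)‖ < (p : ℝ)⁻¹ ^ n} ∩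
      ⋂ i, ⋂ j, ⋂ k, {g' | ‖(ρ i g' : M2 ℚ_[p]) j k - (ρ i g : M2 ℚ_[p]) j k‖ < (p : ℝ)⁻¹ ^ (n + c)})
    have hO : IsOpen O := by
      apply isOpen_interior.inter
      apply IsOpen.inter
      · apply isOpen_lt _ continuous_const
        exact ((hLc.comp hVc).sub continuous_const).norm
      · refine isOpen_iInter_of_finite fun i => isOpen_iInter_of_finite fun j =>
          isOpen_iInter_of_finite fun k => ?_
        apply isOpen_lt _ continuous_const
        exact (((hρc i).matrix_elem j k).sub continuous_const).norm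
    have hgO : g ∈ O := by
      refine ⟨hg, ?_, ?_⟩
      · simp only [Set.mem_ofPred_eq, sub_self, norm_zero]; positivity
      · simp only [Set.mem_iInter, Set.mem_ofPred_eq, sub_self, norm_zero]
        intro i j k; positivity
    obtain ⟨d, hdO, hdD⟩ := hD.inter_open_nonempty O hO ⟨g, hgO⟩
    have hd3 := hdO.2.2
    simp only [Set.mem_iInter, Set.mem_ofPred_eq] at hd3
    have h1 := h d ⟨hdD, interior_subset hdO.1⟩ n (fun i j k => by
      have e : (ρ i d : M2 ℚ_[p]) j k - (ρ i g₀ : M2 ℚ_[p]) j k =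
        ((ρ i d : M2 ℚ_[p]) j k - (ρ i g : M2 ℚ_[p]) j k) +
        ((ρ i g : M2 ℚ_[p]) j k - (ρ i g₀ : M2 ℚ_[p]) j k) := by ring
      rw [e]
      exact (IsUltrametricDist.norm_add_le_max _ _).trans (max_le (hd3 i j k).le (hmod i j k)))
    have e : L (V g) - L (V g₀) = -(L (V d) - L (V g)) + (L (V d) - L (V g₀)) := by ring
    rw [e]
    refine (IsUltrametricDist.norm_add_le_max _ _).trans (max_le ?_ h1)
    rw [norm_neg]
    exact (hdO.2.1 : ‖L (V d) - L (V g)‖ < _).le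
  -- the inequality
  let S : (ι → M2 ℚ_[p]) → ℝ := fun z => ∑ i, ∑ j, ∑ k, ‖z i j k‖
  have hSnn : ∀ z, 0 ≤ S z := fun z => by positivity
  have hSle : ∀ z i j k, ‖z i j k‖ ≤ S z := by
    intro z i j k
    calc ‖z i j k‖ ≤ ∑ k, ‖z i j k‖ :=
          Finset.single_le_sum (f := fun k => ‖z i j k‖) (fun _ _ => norm_nonneg _)
            (Finset.mem_univ k)
      _ ≤ ∑ j, ∑ k, ‖z i j k‖ :=
          Finset.single_le_sum (f := fun j => ∑ k, ‖z i j k‖) (fun _ _ => by positivity)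
            (Finset.mem_univ j)
      _ ≤ S z :=
          Finset.single_le_sum (f := fun i => ∑ j, ∑ k, ‖z i j k‖) (fun _ _ => by positivity)
            (Finset.mem_univ i)
  have hScont : Continuous S := by
    refine continuous_finsetSum _ fun i _ => continuous_finsetSum _ fun j _ =>
      continuous_finsetSum _ fun k _ => ?_
    exact ((continuous_apply i).matrix_elem j k).norm
  have hSsmul : ∀ (t : ℚ_[p]) z, S (t • z) = ‖t‖ * S z := by
    intro t z
    simp only [S, Pi.smul_apply, Matrix.smul_apply, norm_smul, Finset.mul_sum]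
  set C : ℝ := (p : ℝ) * ((p : ℝ)⁻¹ ^ c)⁻¹ with hC
  have hineq : ∀ g ∈ interior N,
      S (fun i => (ρ i g : M2 ℚ_[p]) - (ρ i g₀ : M2 ℚ_[p])) ≤ (p : ℝ)⁻¹ ^ c →
      ‖L (V g) - L (V g₀)‖ ≤ C * S (fun i => (ρ i g : M2 ℚ_[p]) - (ρ i g₀ : M2 ℚ_[p])) := by
    intro g hg hSc
    set s := S (fun i => (ρ i g : M2 ℚ_[p]) - (ρ i g₀ : M2 ℚ_[p])) with hs
    rcases (hSnn (fun i => (ρ i g : M2 ℚ_[p]) - (ρ i g₀ : M2 ℚ_[p]))).eq_or_lt with h0 | hpos
    · have h1 : ∀ n : ℕ, ‖L (V g) - L (V g₀)‖ ≤ (p : ℝ)⁻¹ ^ n := by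
        intro n
        apply hall g hg n
        intro i j k
        have := hSle (fun i => (ρ i g : M2 ℚ_[p]) - (ρ i g₀ : M2 ℚ_[p])) i j k
        rw [← h0] at this
        refine this.trans ?_
        positivity
      have h2 : ‖L (V g) - L (V g₀)‖ ≤ 0 :=
        ge_of_tendsto' (tendsto_pow_atTop_nhds_zero_of_lt_one hpr.le hpr1) h1
      refine h2.trans ?_
      have : s = 0 := h0.symm
      rw [this, mul_zero]
    · have hpc : 0 < (p : ℝ)⁻¹ ^ c := by positivity
      have hx1 : s * ((p : ℝ)⁻¹ ^ c)⁻¹ ≤ 1 := by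
        rw [mul_inv_le_iff₀ hpc, one_mul]; exact hSc
      have hx0 : 0 < s * ((p : ℝ)⁻¹ ^ c)⁻¹ := mul_pos hpos (inv_pos.mpr hpc)
      obtain ⟨n, hn1, hn2⟩ := exists_nat_pow_near_of_lt_one hx0 hx1 hpr hpr1
      have h1 : ‖L (V g) - L (V g₀)‖ ≤ (p : ℝ)⁻¹ ^ n := by
        apply hall g hg n
        intro i j k
        refine (hSle (fun i => (ρ i g : M2 ℚ_[p]) - (ρ i g₀ : M2 ℚ_[p])) i j k).trans ?_
        rw [mul_inv_le_iff₀ hpc] at hn2
        rw [pow_add]
        exact hn2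
      refine h1.trans ?_
      have hp0 : (0 : ℝ) < p := by exact_mod_cast hp.out.pos
      calc (p : ℝ)⁻¹ ^ n = (p : ℝ) * (p : ℝ)⁻¹ ^ (n + 1) := by
            rw [pow_succ]; field_simp
        _ ≤ (p : ℝ) * (s * ((p : ℝ)⁻¹ ^ c)⁻¹) := by gcongr
        _ = C * s := by rw [hC]; ring
  -- the family
  let R : Option ι → G →* GL (Fin 2) ℚ_[p] := fun k => k.elim V ρ
  have hRc : ∀ k, Continuous (R k) := by
    rintro (_ | i)
    · exact hV
    · exact hρ i
  have hNo : IsOpen ((fun g => g₀ * g) ⁻¹' interior N) :=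
    isOpen_interior.preimage (continuous_const_mul g₀)
  obtain ⟨U, hU, hUo, hUs, hUN⟩ := exists_small p hRc hNo (by
    change g₀ * 1 ∈ interior N
    rw [mul_one]
    exact mem_interior_iff_mem_nhds.mpr hN)
  rcases dichotomy p hRc hU hUo hUs none ((strIrr_iff _).mp hirr) with ⟨k, hk, hh, hk'⟩ | hfull
  · rcases k with _ | i
    · exact hk rfl
    · exact hcon i (isTwist_of hV (hρ i) hk')
  · -- the closed condition
    let F : Set (Option ι → M2 ℚ_[p]) :=
      {z | ‖L ((V g₀ : M2 ℚ_[p]) * z none)‖ ≤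
        C * S (fun i => (ρ i g₀ : M2 ℚ_[p]) * z (some i))}
    have hF : IsClosed F := by
      apply isClosed_le
      · exact (hLc.comp (continuous_const.mul (continuous_apply none))).norm
      · apply continuous_const.mul
        apply hScont.comp
        exact continuous_pi fun i => continuous_const.mul (continuous_apply (some i))
    have hscale : ∀ w ∈ F, ∀ m : ℕ, ((p : ℚ_[p]) ^ m)⁻¹ • w ∈ F := by
      intro w hw m
      change ‖L ((V g₀ : M2 ℚ_[p]) * (((p : ℚ_[p]) ^ m)⁻¹ • w none))‖ ≤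
        C * S (fun i => (ρ i g₀ : M2 ℚ_[p]) * (((p : ℚ_[p]) ^ m)⁻¹ • w (some i)))
      have e : (fun i => (ρ i g₀ : M2 ℚ_[p]) * (((p : ℚ_[p]) ^ m)⁻¹ • w (some i))) =
          ((p : ℚ_[p]) ^ m)⁻¹ • (fun i => (ρ i g₀ : M2 ℚ_[p]) * w (some i)) := by
        funext i; simp
      rw [e, hSsmul, mul_smul_comm, map_smul, norm_smul]
      calc _ ≤ ‖((p : ℚ_[p]) ^ m)⁻¹‖ * (C * S (fun i => (ρ i g₀ : M2 ℚ_[p]) * w (some i))) := by
            gcongr
            exact hw
        _ = _ := by ring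
    have hdir : ∀ w, IsDir p R U w → w ∈ F := by
      rintro w ⟨g, hg, hl⟩
      have hl0 : Tendsto (fun n : ℕ => ((p : ℚ_[p]) ^ n)⁻¹ • ((V (g n) : M2 ℚ_[p]) - 1)) atTop
        (𝓝 (w none)) := hl none
      have hl1 : Tendsto (fun n : ℕ => (fun i => ((p : ℚ_[p]) ^ n)⁻¹ •
        ((ρ i (g n) : M2 ℚ_[p]) - 1))) atTop (𝓝 (fun i => w (some i))) := by
        rw [tendsto_pi_nhds]
        intro i; exact hl (some i)
      have hcm : Continuous (fun y : M2 ℚ_[p] => L ((V g₀ : M2 ℚ_[p]) * y)) :=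
        hLc.comp (continuous_const.mul continuous_id)
      have hleft := (hcm.tendsto (w none)).comp hl0
      have hright0 := (((continuous_pi fun i => continuous_const.mul (continuous_apply i) :
        Continuous fun (z : ι → M2 ℚ_[p]) => (fun i => (ρ i g₀ : M2 ℚ_[p]) * z i))).tendsto
          (fun i => w (some i))).comp hl1
      have hright := (hScont.tendsto _).comp hright0
      refine le_of_tendsto_of_tendsto hleft.norm (hright.const_mul C) ?_
      -- eventually small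
      have hsmall : ∀ᶠ n in atTop, S (fun i => (ρ i (g₀ * g n) : M2 ℚ_[p]) -
          (ρ i g₀ : M2 ℚ_[p])) ≤ (p : ℝ)⁻¹ ^ c := by
        have h1 : Tendsto (fun n => S (fun i => (ρ i (g₀ * g n) : M2 ℚ_[p]) -
            (ρ i g₀ : M2 ℚ_[p]))) atTop (𝓝 (S (fun i => (ρ i g₀ : M2 ℚ_[p]) * 1 -
              (ρ i g₀ : M2 ℚ_[p])))) := by
          apply (hScont.tendsto _).comp
          rw [tendsto_pi_nhds]
          intro i
          have h2 := tendsto_one_of_log p (hl (some i))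
          have h3 := (h2.const_mul (ρ i g₀ : M2 ℚ_[p])).sub_const (ρ i g₀ : M2 ℚ_[p])
          refine h3.congr fun n => ?_
          rw [map_mul, Units.val_mul]
          rfl
        have h4 : S (fun i => (ρ i g₀ : M2 ℚ_[p]) * 1 - (ρ i g₀ : M2 ℚ_[p])) = 0 := by
          simp [S]
        rw [h4] at h1
        have h5 : (0 : ℝ) < (p : ℝ)⁻¹ ^ c := by positivity
        exact (h1.eventually (gt_mem_nhds h5)).mono fun n hn => hn.le
      filter_upwards [hsmall] with n hn
      have h1 := hineq (g₀ * g n) (hUN (hg n)) hn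
      have hpn : ((p : ℚ_[p]) ^ n) ≠ 0 := pow_ne_zero _ (p_ne_zero' p)
      have e1 : (V g₀ : M2 ℚ_[p]) * (((p : ℚ_[p]) ^ n)⁻¹ • ((V (g n) : M2 ℚ_[p]) - 1)) =
          ((p : ℚ_[p]) ^ n)⁻¹ • ((V (g₀ * g n) : M2 ℚ_[p]) - (V g₀ : M2 ℚ_[p])) := by
        rw [mul_smul_comm, mul_sub, mul_one, map_mul, Units.val_mul]
      have e2 : (fun i => (ρ i g₀ : M2 ℚ_[p]) *
          (((p : ℚ_[p]) ^ n)⁻¹ • ((ρ i (g n) : M2 ℚ_[p]) - 1))) =
          ((p : ℚ_[p]) ^ n)⁻¹ • (fun i => (ρ i (g₀ * g n) : M2 ℚ_[p]) - (ρ i g₀ : M2 ℚ_[p])) := by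
        funext i
        rw [Pi.smul_apply, mul_smul_comm, mul_sub, mul_one, map_mul, Units.val_mul]
      simp only [Function.comp]
      rw [e1, e2, hSsmul, map_smul, map_sub, norm_smul]
      calc _ ≤ ‖((p : ℚ_[p]) ^ n)⁻¹‖ * (C * S (fun i => (ρ i (g₀ * g n) : M2 ℚ_[p]) -
            (ρ i g₀ : M2 ℚ_[p]))) := by gcongr
        _ = _ := by ring
    -- conclusion
    have hzero : ∀ x : M2 ℚ_[p], x.trace = 0 → L ((V g₀ : M2 ℚ_[p]) * x) = 0 := by
      intro x hx
      have h1 := closed_principle hF hscale hdir (hfull x hx)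
      have h2 : ‖L ((V g₀ : M2 ℚ_[p]) * (Pi.single none x : Option ι → M2 ℚ_[p]) none)‖ ≤
        C * S (fun i => (ρ i g₀ : M2 ℚ_[p]) *
          (Pi.single none x : Option ι → M2 ℚ_[p]) (some i)) := h1
      have h3 : (fun i => (ρ i g₀ : M2 ℚ_[p]) *
          (Pi.single none x : Option ι → M2 ℚ_[p]) (some i)) = 0 := by
        funext i
        rw [Pi.single_eq_of_ne (by simp), mul_zero]
        rfl
      have h4 : S (0 : ι → M2 ℚ_[p]) = 0 := by simp [S]
      rw [h3, h4, mul_zero, Pi.single_eq_same] at h2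
      exact norm_le_zero_iff.mp h2
    obtain ⟨y, hy⟩ := hL ((2 : ℚ_[p])⁻¹ * L (V g₀))
    apply hy
    set y' : M2 ℚ_[p] := (((V g₀)⁻¹ : GL (Fin 2) ℚ_[p]) : M2 ℚ_[p]) * y with hy'
    have e0 : y = (V g₀ : M2 ℚ_[p]) * y' := by
      rw [hy', ← mul_assoc, mul_inv_val, one_mul]
    have e1 : y' = dev y' + ((2 : ℚ_[p])⁻¹ * y'.trace) • (1 : M2 ℚ_[p]) := by
      rw [dev_apply]; abel
    have e2 : L y = L ((V g₀ : M2 ℚ_[p]) * dev y') +
        ((2 : ℚ_[p])⁻¹ * y'.trace) * L (V g₀) := by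
      rw [e0]
      conv_lhs => rw [e1]
      rw [mul_add, mul_smul_comm, mul_one, map_add, map_smul, smul_eq_mul]
    rw [e2, hzero _ (trace_dev _)]
    ring

end Pool.Agent.Results.MP_b583a4_nt.LocalControl
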